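import Pool.Agent.H317.GR.StmC

/-! # A nilpotent group whose centre has finite exponent has finite exponent (helper51) -/

set_option autoImplicit false

namespace Pool.Agent.H51.GR

open Pool.Agent.H317.GR

theorem comm_pow {G : Type} [Group G] (z g c : G) (hc : c ∈ Subgroup.center G)
    (h : z * g = c * g * z) (s : ℕ) : z ^ s * g = c ^ s * g * z ^ s := by
  induction s with
  | zero => simp
  | succ s ih =>
    have hc' : z ^ s * c = c * z ^ s := (Subgroup.mem_center_iff.1 hc (z ^ s))
    calc z ^ (s + 1) * g = z ^ s * (z * g) := by rw [pow_succ, mul_assoc]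
      _ = z ^ s * c * g * z := by rw [h]; simp only [mul_assoc]
      _ = c * (z ^ s * g) * z := by rw [hc']; simp only [mul_assoc]
      _ = c ^ (s + 1) * g * z ^ (s + 1) := by rw [ih, pow_succ' c, pow_succ z]; simp only [mul_assoc]

theorem exp : S_EXP := by
  intro G _ _ e he
  refine Group.nilpotent_center_quotient_ind (P := fun G _ _ =>
    (∀ z ∈ Subgroup.center G, z ^ e = 1) → ∃ E : ℕ, 0 < E ∧ ∀ g : G, g ^ E = 1) G ?_ ?_
  · intro G _ _ _
    exact ⟨1, one_pos, fun g => Subsingleton.elim _ _⟩
  · intro G _ _ ih hz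
    have hq : ∀ z ∈ Subgroup.center (G ⧸ Subgroup.center G), z ^ e = 1 := by
      intro z hzc
      obtain ⟨z, rfl⟩ := QuotientGroup.mk_surjective z
      rw [← QuotientGroup.mk_pow, QuotientGroup.eq_one_iff, Subgroup.mem_center_iff]
      intro g
      have h1 := Subgroup.mem_center_iff.1 hzc (g : G ⧸ Subgroup.center G)
      rw [← QuotientGroup.mk_mul, ← QuotientGroup.mk_mul, QuotientGroup.eq] at h1
      -- `(g * z)⁻¹ * (z * g)` is central
      have h2 : z * g = ((g * z)⁻¹ * (z * g)) * g * z := by
        rw [mul_assoc, ← Subgroup.mem_center_iff.1 h1 (g * z)]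
        group
      have h3 := comm_pow z g _ h1 h2 e
      rw [hz _ h1, one_mul] at h3
      exact h3.symm
    obtain ⟨E, hE, h⟩ := ih hq
    refine ⟨E * e, Nat.mul_pos hE he, fun g => ?_⟩
    have h1 := h (g : G ⧸ Subgroup.center G)
    rw [← QuotientGroup.mk_pow, QuotientGroup.eq_one_iff] at h1
    rw [pow_mul]
    exact hz _ h1

end Pool.Agent.H51.GR
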